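import Pool.Agent.W206.ND.Stm

set_option autoImplicit false

namespace Pool.Agent.W162.ND.WB

open Filter Topology Pool.Agent.W206.ND

theorem avg_aux {α : Type} (K : Finset α) (a0 : α) (ha0 : a0 ∈ K) (w : α → ℂ) (E : α → ℕ → ℂ)
    (h1 : ∀ a ∈ K, a ≠ a0 → Tendsto (fun N : ℕ => (∑ i ∈ Finset.range N, E a i) / (N : ℂ))
      atTop (𝓝 0)) (h2 : ∀ i, E a0 i = 1) :
    Tendsto (fun N : ℕ => (∑ i ∈ Finset.range N, ∑ a ∈ K, w a * E a i) / (N : ℂ))
      atTop (𝓝 (w a0)) := by
  classical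
  have e : ∀ N : ℕ, (∑ i ∈ Finset.range N, ∑ a ∈ K, w a * E a i) / (N : ℂ)
      = ∑ a ∈ K, w a * ((∑ i ∈ Finset.range N, E a i) / (N : ℂ)) := by
    intro N
    rw [Finset.sum_comm, Finset.sum_div]
    refine Finset.sum_congr rfl fun a _ => ?_
    rw [← Finset.mul_sum, mul_div_assoc]
  simp_rw [e]
  have hw : w a0 = ∑ a ∈ K, w a * (if a = a0 then 1 else 0) := by
    simp [ha0]
  rw [hw]
  refine tendsto_finsetSum K fun a ha => ?_
  refine Tendsto.const_mul _ ?_
  by_cases h : a = a0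
  · rw [if_pos h]
    have : ∀ᶠ N : ℕ in atTop, (1 : ℂ) = (∑ i ∈ Finset.range N, E a i) / (N : ℂ) := by
      filter_upwards [eventually_ge_atTop 1] with N hN
      rw [h]
      simp only [h2, Finset.sum_const, Finset.card_range, nsmul_eq_mul, mul_one]
      rw [div_self]
      exact_mod_cast (by omega : N ≠ 0)
    exact (tendsto_congr' this).mp tendsto_const_nhds
  · rw [if_neg h]
    exact h1 a ha h

theorem ee_zero : ee 0 = 1 := by simp [ee]

theorem ee_add (x y : ℝ) : ee (x + y) = ee x * ee y := by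
  unfold ee; rw [← Complex.exp_add]; congr 1; push_cast; ring

theorem ee_sum {ι : Type} (s : Finset ι) (f : ι → ℝ) : ee (∑ j ∈ s, f j) = ∏ j ∈ s, ee (f j) := by
  classical
  induction s using Finset.induction_on with
  | empty => simp [ee_zero]
  | insert a s ha ih => rw [Finset.sum_insert ha, Finset.prod_insert ha, ee_add, ih]

theorem prod_diff {ι : Type} (s : Finset ι) (x y : ι → ℝ) (hx : ∀ j, 0 ≤ x j) (hx1 : ∀ j, x j ≤ 1)
    (hxy : ∀ j, x j ≤ y j) (hy : ∀ j, y j ≤ 2) :
    ∏ j ∈ s, y j - ∏ j ∈ s, x j ≤ 2 ^ s.card * ∑ j ∈ s, (y j - x j) := by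
  classical
  induction s using Finset.induction_on with
  | empty => simp
  | insert a s ha ih =>
    rw [Finset.prod_insert ha, Finset.prod_insert ha, Finset.sum_insert ha,
      Finset.card_insert_of_notMem ha]
    have hY : ∏ j ∈ s, y j ≤ 2 ^ s.card := by
      have := Finset.prod_le_prod (s := s) (f := y) (g := fun _ => (2 : ℝ))
        (fun j _ => (hx j).trans (hxy j)) (fun j _ => hy j)
      simpa using this
    have hd : ∏ j ∈ s, x j ≤ ∏ j ∈ s, y j :=
      Finset.prod_le_prod (fun j _ => hx j) (fun j _ => hxy j)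
    have hS : 0 ≤ ∑ j ∈ s, (y j - x j) := Finset.sum_nonneg fun j _ => sub_nonneg.mpr (hxy j)
    have hp : (0 : ℝ) < 2 ^ s.card := by positivity
    have h1 : (y a - x a) * ∏ j ∈ s, y j ≤ (y a - x a) * 2 ^ s.card :=
      mul_le_mul_of_nonneg_left hY (sub_nonneg.mpr (hxy a))
    have h2 : x a * (∏ j ∈ s, y j - ∏ j ∈ s, x j) ≤ 1 * (∏ j ∈ s, y j - ∏ j ∈ s, x j) :=
      mul_le_mul_of_nonneg_right (hx1 a) (sub_nonneg.mpr hd)
    have h3 : 0 ≤ 2 ^ s.card * (y a - x a) := mul_nonneg hp.le (sub_nonneg.mpr (hxy a))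
    have h4 : 0 ≤ 2 ^ s.card * ∑ j ∈ s, (y j - x j) := mul_nonneg hp.le hS
    rw [pow_succ]
    nlinarith [h1, h2, h3, h4, ih]

theorem main : S_WB := by
  classical
  intro hAP n p hW a c hac
  -- single variable averages
  have hsingle : ∀ (j : Fin n) (k : ℤ), k ≠ 0 → Tendsto (fun N : ℕ => (∑ i ∈ Finset.range N,
      ee (k * p i j)) / (N : ℂ)) atTop (𝓝 0) := by
    intro j k hk
    have := hW (Pi.single j k) (by
      intro h
      have := congrFun h j
      simp at this
      exact hk this)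
    convert this using 5 with N i
    rw [Finset.sum_eq_single j]
    · simp
    · intro b _ hb
      simp [Pi.single_eq_of_ne hb]
    · simp
  have hcont : Continuous (fun z : Fin n → ℝ => ∏ j, z j) := by fun_prop
  rw [Metric.tendsto_atTop]
  intro δ hδ
  have hc2 := Metric.continuousAt_iff.mp (hcont.continuousAt (x := fun j => c j - a j))
    (δ / 4) (by positivity)
  obtain ⟨ε₀, hε₀, hcon⟩ := hc2
  set ε : ℝ := min (ε₀ / 2) (δ / (16 * (n + 1) * 2 ^ n)) with hε
  have hεpos : 0 < ε := lt_min (by positivity) (by positivity)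
  choose S P Q hPQ h0 hp0 hq0 hpl hqu using fun j => hAP (a j) (c j) (hac j).1 (hac j).2.1
    (hac j).2.2 ε hεpos
  -- notation
  set ind : Fin n → ℝ → ℝ := fun j y => if a j ≤ Int.fract y ∧ Int.fract y < c j then 1 else 0
    with hind
  set r : Fin n → ℝ → ℝ := fun j y => (∑ k ∈ S j, Q j k * ee (k * y)).re with hr
  set s : Fin n → ℝ → ℝ := fun j y => (∑ k ∈ S j, P j k * ee (k * y)).re with hs
  have hrc : ∀ j y, ((r j y : ℝ) : ℂ) = ∑ k ∈ S j, Q j k * ee (k * y) := fun j y =>
    Complex.ext (by simp [hr]) (by simp [(hPQ j y).2.1])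
  have hsc : ∀ j y, ((s j y : ℝ) : ℂ) = ∑ k ∈ S j, P j k * ee (k * y) := fun j y =>
    Complex.ext (by simp [hs]) (by simp [(hPQ j y).1])
  -- limits
  have hlimr : Tendsto (fun N : ℕ => (∑ i ∈ Finset.range N, ∏ j, r j (p i j)) / (N : ℝ)) atTop
      (𝓝 (∏ j, (Q j 0).re)) := by
    have h1 := avg_aux (Fintype.piFinset S) (0 : Fin n → ℤ)
      (Fintype.mem_piFinset.mpr fun j => h0 j) (fun κ => ∏ j, Q j (κ j))
      (fun κ i => ee (∑ j, (κ j : ℝ) * p i j)) (fun κ _ hκ => hW κ hκ)
      (fun i => by simp [ee_zero])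
    have h2 : ∀ i, (((∏ j, r j (p i j) : ℝ)) : ℂ)
        = ∑ κ ∈ Fintype.piFinset S, (∏ j, Q j (κ j)) * ee (∑ j, (κ j : ℝ) * p i j) := by
      intro i
      rw [Complex.ofReal_prod]
      simp_rw [hrc]
      rw [Finset.prod_univ_sum]
      refine Finset.sum_congr rfl fun κ _ => ?_
      rw [ee_sum, ← Finset.prod_mul_distrib]
    have h3 : Tendsto (fun N : ℕ => (((∑ i ∈ Finset.range N, ∏ j, r j (p i j)) / (N : ℝ) : ℝ) : ℂ))
        atTop (𝓝 ((∏ j, (Q j 0).re : ℝ) : ℂ)) := by
      convert h1 using 2 with N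
      · push_cast
        congr 1
        refine Finset.sum_congr rfl fun i _ => ?_
        rw [← h2 i]; push_cast; rfl
      · push_cast
        refine Finset.prod_congr rfl fun j _ => ?_
        exact Complex.ext (by simp) (by simp [hq0 j])
    have h4 := (Complex.continuous_re.tendsto _).comp h3
    simpa only [Function.comp_def, Complex.ofReal_re] using h4
  have hlimd : ∀ j, Tendsto (fun N : ℕ => (∑ i ∈ Finset.range N, (r j (p i j) - s j (p i j))) /
      (N : ℝ)) atTop (𝓝 ((Q j 0).re - (P j 0).re)) := by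
    intro j
    have h1 := avg_aux (S j) 0 (h0 j) (fun k => Q j k - P j k)
      (fun k i => ee (k * p i j)) (fun k _ hk => hsingle j k hk)
      (fun i => by simp [ee_zero])
    have h2 : ∀ i, (((r j (p i j) - s j (p i j) : ℝ)) : ℂ)
        = ∑ k ∈ S j, (Q j k - P j k) * ee (k * p i j) := by
      intro i
      rw [Complex.ofReal_sub, hrc, hsc, ← Finset.sum_sub_distrib]
      exact Finset.sum_congr rfl fun k _ => by ring
    have h3 : Tendsto (fun N : ℕ => (((∑ i ∈ Finset.range N, (r j (p i j) - s j (p i j))) /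
        (N : ℝ) : ℝ) : ℂ)) atTop (𝓝 (((Q j 0).re - (P j 0).re : ℝ) : ℂ)) := by
      convert h1 using 2 with N
      · rw [Complex.ofReal_div, Complex.ofReal_sum, Complex.ofReal_natCast]
        congr 1
        exact Finset.sum_congr rfl fun i _ => h2 i
      · exact Complex.ext (by simp) (by simp [hq0 j, hp0 j])
    have h4 := (Complex.continuous_re.tendsto _).comp h3
    simpa only [Function.comp_def, Complex.ofReal_re] using h4
  -- pointwise facts
  have hi0 : ∀ j y, 0 ≤ ind j y := fun j y => by simp only [hind]; split_ifs <;> norm_num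
  have hi1 : ∀ j y, ind j y ≤ 1 := fun j y => by simp only [hind]; split_ifs <;> norm_num
  have hir : ∀ j y, ind j y ≤ r j y := fun j y => (hPQ j y).2.2.2.1
  have hsi : ∀ j y, s j y ≤ ind j y := fun j y => (hPQ j y).2.2.1
  have hr2 : ∀ j y, r j y ≤ 2 := fun j y => (hPQ j y).2.2.2.2
  have hcard : ∀ N : ℕ, (((Finset.range N).filter
      (fun i => ∀ j, a j ≤ Int.fract (p i j) ∧ Int.fract (p i j) < c j)).card : ℝ)
      = ∑ i ∈ Finset.range N, ∏ j, ind j (p i j) := by
    intro N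
    rw [Finset.card_filter]
    push_cast
    refine Finset.sum_congr rfl fun i _ => ?_
    simp only [hind]
    rw [Finset.prod_ite_zero]
    simp
  -- the sum of the differences
  have hlimD : Tendsto (fun N : ℕ => ∑ j, (∑ i ∈ Finset.range N, (r j (p i j) - s j (p i j))) /
      (N : ℝ)) atTop (𝓝 (∑ j, ((Q j 0).re - (P j 0).re))) :=
    tendsto_finsetSum _ fun j _ => hlimd j
  have hq0l : ∀ j, (P j 0).re ≤ (Q j 0).re := by
    intro j
    have : 0 ≤ (Q j 0).re - (P j 0).re := by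
      refine ge_of_tendsto' (hlimd j) fun N => ?_
      refine div_nonneg (Finset.sum_nonneg fun i _ => ?_) (Nat.cast_nonneg _)
      have := hir j (p i j); have := hsi j (p i j); linarith
    linarith
  have hDsmall : ∑ j, ((Q j 0).re - (P j 0).re) ≤ n * (2 * ε) := by
    have : ∑ j : Fin n, ((Q j 0).re - (P j 0).re) ≤ ∑ _j : Fin n, (2 * ε) :=
      Finset.sum_le_sum fun j _ => by have := hpl j; have := hqu j; linarith
    simpa using this
  have hεd : 2 ^ n * (n * (2 * ε)) ≤ δ / 8 := by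
    have h1 : ε ≤ δ / (16 * (n + 1) * 2 ^ n) := min_le_right _ _
    have h2 : (2 : ℝ) ^ n * (n * (2 * ε)) ≤ 2 ^ n * (n * (2 * (δ / (16 * (n + 1) * 2 ^ n)))) := by
      gcongr
    refine h2.trans ?_
    have h3 : (2 : ℝ) ^ n * (n * (2 * (δ / (16 * (n + 1) * 2 ^ n)))) = δ / 8 * (n / (n + 1)) := by
      field_simp; ring
    rw [h3]
    have h4 : (n : ℝ) / (n + 1) ≤ 1 := by
      rw [div_le_one (by positivity)]; linarith
    nlinarith
  have hQd : |∏ j, (Q j 0).re - ∏ j, (c j - a j)| < δ / 4 := by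
    have h1 := hcon (x := fun j => (Q j 0).re) (by
      rw [dist_pi_lt_iff hε₀]
      intro j
      rw [Real.dist_eq, abs_lt]
      have h2 : ε ≤ ε₀ / 2 := min_le_left _ _
      have := hpl j; have := hqu j; have := hq0l j
      constructor <;> linarith)
    rwa [Real.dist_eq] at h1
  have ev1 := (Metric.tendsto_atTop.mp hlimr) (δ / 4) (by positivity)
  have ev2 := (Metric.tendsto_atTop.mp hlimD) (δ / (8 * 2 ^ n)) (by positivity)
  obtain ⟨N1, hN1⟩ := ev1
  obtain ⟨N2, hN2⟩ := ev2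
  refine ⟨max (max N1 N2) 1, fun N hN => ?_⟩
  have hNp : (0 : ℝ) < N := by
    have : 1 ≤ N := (le_max_right _ _).trans hN
    exact_mod_cast this
  have b1 := hN1 N ((le_max_left _ _).trans ((le_max_left _ _).trans hN))
  have b2 := hN2 N ((le_max_right _ _).trans ((le_max_left _ _).trans hN))
  rw [Real.dist_eq, abs_lt] at b1 b2
  rw [Real.dist_eq, hcard N, abs_lt]
  have u1 : (∑ i ∈ Finset.range N, ∏ j, ind j (p i j)) / (N : ℝ)
      ≤ (∑ i ∈ Finset.range N, ∏ j, r j (p i j)) / (N : ℝ) := by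
    refine div_le_div_of_nonneg_right (Finset.sum_le_sum fun i _ => ?_) hNp.le
    exact Finset.prod_le_prod (fun j _ => hi0 j _) (fun j _ => hir j _)
  have u2 : (∑ i ∈ Finset.range N, ∏ j, r j (p i j)) / (N : ℝ)
      - (∑ i ∈ Finset.range N, ∏ j, ind j (p i j)) / (N : ℝ)
      ≤ 2 ^ n * ∑ j, (∑ i ∈ Finset.range N, (r j (p i j) - s j (p i j))) / (N : ℝ) := by
    rw [← sub_div, ← Finset.sum_sub_distrib, ← Finset.sum_div, ← mul_div_assoc,
      Finset.sum_comm, Finset.mul_sum]
    refine div_le_div_of_nonneg_right (Finset.sum_le_sum fun i _ => ?_) hNp.le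
    have h1 := prod_diff Finset.univ (fun j => ind j (p i j)) (fun j => r j (p i j))
      (fun j => hi0 j _) (fun j => hi1 j _) (fun j => hir j _) (fun j => hr2 j _)
    rw [Finset.card_univ, Fintype.card_fin] at h1
    refine h1.trans ?_
    refine mul_le_mul_of_nonneg_left (Finset.sum_le_sum fun j _ => ?_) (by positivity)
    have := hsi j (p i j); linarith
  have u3 : 2 ^ n * ∑ j, (∑ i ∈ Finset.range N, (r j (p i j) - s j (p i j))) / (N : ℝ)
      ≤ δ / 4 := by
    have h1 : ∑ j, (∑ i ∈ Finset.range N, (r j (p i j) - s j (p i j))) / (N : ℝ)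
        ≤ n * (2 * ε) + δ / (8 * 2 ^ n) := by linarith [b2.2]
    have h2 : (2 : ℝ) ^ n * (n * (2 * ε) + δ / (8 * 2 ^ n)) = 2 ^ n * (n * (2 * ε)) + δ / 8 := by
      field_simp
    have h3 := mul_le_mul_of_nonneg_left h1 (by positivity : (0 : ℝ) ≤ 2 ^ n)
    rw [h2] at h3
    linarith
  rw [abs_lt] at hQd
  constructor
  · linarith [b1.1, hQd.1]
  · linarith [b1.2, hQd.2]

end Pool.Agent.W162.ND.WB
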